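import Pool.Agent.Q145.TN.Low
import Pool.Agent.Q145.TN.Up

/-!
# A compact symmetric space whose two-number is not its total mod 2 Betti number

`M = (S² × S² × S²) / Γ`, where `Γ` is the group of the even sign changes
`(x, y, z) ↦ (ε₁ x, ε₂ y, ε₃ z)`, `ε₁ ε₂ ε₃ = 1`.  The two-number is at most `12` (points of an
antipodal set correspond to triples of coordinate lines which pairwise agree in exactly one place,
two points for a triple) and the total mod 2 Betti number is at least `14`, by the Smith inequality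
for the two commuting isometries induced by `diag(1,-1,1)` and `diag(1,1,-1)`, which have exactly
`14` common fixed points.
-/

namespace Pool.Agent.Results.MP_efd99a_gt.TwoNumberBelowBetti

open Pool.Agent.Helper381 Bundle Manifold
open scoped ContDiff

/-- There is a connected compact Riemannian symmetric space `M` with `#₂ M ≤ 12` and
`14 ≤ dim H(M; Z₂) < ∞`; in particular `#₂ M ≠ dim H(M; Z₂)`. -/
theorem result : ∃ (E : Type) (_ : NormedAddCommGroup E) (_ : NormedSpace ℝ E)
    (_ : FiniteDimensional ℝ E) (M : Type) (_ : MetricSpace M) (_ : CompactSpace M)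
    (_ : ConnectedSpace M) (_ : ChartedSpace E M) (_ : IsManifold 𝓘(ℝ, E) ∞ M)
    (_ : RiemannianBundle (fun x : M => TangentSpace 𝓘(ℝ, E) x))
    (_ : IsContMDiffRiemannianBundle 𝓘(ℝ, E) ∞ E (fun x : M => TangentSpace 𝓘(ℝ, E) x))
    (_ : IsRiemannianManifold 𝓘(ℝ, E) M),
    IsSymmetric M ∧ twoNumber M ≠ totalBetti (ZMod 2) M ∧
      twoNumber M ≤ 12 ∧ 14 ≤ totalBetti (ZMod 2) M ∧ totalBetti (ZMod 2) M ≠ ⊤ := by
  obtain ⟨N, _, _, _, _, g', p, hq⟩ := Q145.TN.exists_N
  have hc : Continuous p := hq.covering.continuous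
  have : CompactSpace N := Function.Surjective.compactSpace hc hq.surjective
  have : ConnectedSpace N := hq.surjective.connectedSpace hc
  have : T3Space N := inferInstance
  have h1 := Q145.TN.isSymmetric hq
  have h2 := Q145.TN.twoNumber_le hq
  have h3 := Q145.TN.fourteen_le hq
  refine ⟨Q145.TN.EE, inferInstance, inferInstance, inferInstance, N, Q145.TN.mS g', ‹_›, ‹_›, ‹_›,
    ‹_›, Q145.TN.rb g', Q145.TN.smooth_rb g', Q145.TN.irm g', h1, ?_, h2, h3, ?_⟩
  · intro h
    rw [h] at h2
    exact absurd (h3.trans h2) (by decide)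
  · let _ := Q145.TN.mS g'
    obtain ⟨R, G⟩ := Q145.TN.exists_geo g'
    have : Nonempty N := inferInstance
    obtain ⟨a, K, b⟩ := G.betti_finite (M := N) (ZMod 2)
    rw [totalBetti_eq K a b]
    exact ENat.natCast_ne_top _

end Pool.Agent.Results.MP_efd99a_gt.TwoNumberBelowBetti
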